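import Mathlib

set_option autoImplicit false

namespace Pool.Agent.Results.MP_3684f0_an.Expose

open scoped RealInnerProductSpace
open Filter Topology

variable {H : Type} [NormedAddCommGroup H] [InnerProductSpace ℝ H]

/-- `p` is a point of `C` nearest to `x`. -/
def IsNearest (C : Set H) (x p : H) : Prop := p ∈ C ∧ ∀ y ∈ C, ‖x - p‖ ≤ ‖x - y‖

/-- The functional `y ↦ ⟨v, y⟩` strongly exposes `p` in `C`. -/
def StronglyExposes (v : H) (C : Set H) (p : H) : Prop :=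
  p ∈ C ∧ ⟪v, p⟫ = sSup ((fun y => ⟪v, y⟫) '' C) ∧
    ∀ y : ℕ → H, (∀ k, y k ∈ C) →
      Tendsto (fun k => ⟪v, y k⟫) atTop (𝓝 (sSup ((fun y => ⟪v, y⟫) '' C))) →
      Tendsto y atTop (𝓝 p)

lemma key (C : Set H) (x p : H) (hp : p ∈ C)
    (h : ∀ y ∈ C, 2 * ⟪x - p, y - p⟫ + ‖y - p‖ ^ 2 ≤ 0) :
    IsNearest C x p ∧ StronglyExposes (x - p) C p := by
  have hs : ⟪x - p, p⟫ = sSup ((fun y => ⟪x - p, y⟫) '' C) := by
    symm
    refine IsGreatest.csSup_eq ⟨⟨p, hp, rfl⟩, ?_⟩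
    rintro _ ⟨y, hy, rfl⟩
    have := h y hy
    rw [inner_sub_right] at this
    nlinarith [sq_nonneg ‖y - p‖]
  refine ⟨⟨hp, fun y hy => ?_⟩, hp, hs, fun y hy ht => ?_⟩
  · have h1 := h y hy
    have h2 := norm_sub_sq_real (x - p) (y - p)
    rw [sub_sub_sub_cancel_right] at h2
    refine (sq_le_sq₀ (norm_nonneg _) (norm_nonneg _)).mp ?_
    nlinarith [sq_nonneg ‖y - p‖]
  · rw [← hs] at ht
    rw [tendsto_iff_norm_sub_tendsto_zero]
    have h1 : Tendsto (fun k => √(2 * (⟪x - p, p⟫ - ⟪x - p, y k⟫))) atTop (𝓝 0) := by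
      have := ((ht.const_sub ⟪x - p, p⟫).const_mul 2).sqrt
      simpa using this
    refine squeeze_zero (fun _ => norm_nonneg _) (fun k => ?_) h1
    apply Real.le_sqrt_of_sq_le
    have := h (y k) (hy k)
    rw [inner_sub_right] at this
    linarith

theorem result (H : Type) [NormedAddCommGroup H] [InnerProductSpace ℝ H] [CompleteSpace H]
    (n : ℕ) (C : Fin n → Set H) (hne : ∀ i, (C i).Nonempty) (hc : ∀ i, IsCompact (C i))
    (_hv : ∀ i, Convex ℝ (C i)) :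
    ∃ x : H, ∀ i, ∃ p, IsNearest (C i) x p ∧ StronglyExposes (x - p) (C i) p := by
  have hK : IsCompact (Set.pi Set.univ C) := isCompact_univ_pi hc
  obtain ⟨p, hp, hmax⟩ := hK.exists_isMaxOn (Set.univ_pi_nonempty_iff.mpr hne)
    (f := fun p : Fin n → H => 2 * ‖∑ i, p i‖ ^ 2 - ∑ i, ‖p i‖ ^ 2) (by fun_prop)
  refine ⟨(2 : ℝ) • ∑ i, p i, fun i => ⟨p i, key _ _ _ (hp i trivial) fun y hy => ?_⟩⟩
  have hm : Function.update p i y ∈ Set.pi Set.univ C := by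
    intro j _
    by_cases hj : j = i
    · subst hj; simpa using hy
    · simpa [hj] using hp j trivial
  have h1 : 2 * ‖∑ j, Function.update p i y j‖ ^ 2 - ∑ j, ‖Function.update p i y j‖ ^ 2 ≤
      2 * ‖∑ j, p j‖ ^ 2 - ∑ j, ‖p j‖ ^ 2 := hmax hm
  have e1 : ∑ j, Function.update p i y j = ∑ j, p j + (y - p i) := by
    rw [Finset.sum_update_of_mem (Finset.mem_univ i),
      ← Finset.add_sum_erase _ p (Finset.mem_univ i), Finset.sdiff_singleton_eq_erase]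
    abel
  have e2 : ∑ j, ‖Function.update p i y j‖ ^ 2 = ∑ j, ‖p j‖ ^ 2 + (‖y‖ ^ 2 - ‖p i‖ ^ 2) := by
    rw [← Finset.add_sum_erase _ _ (Finset.mem_univ i),
      ← Finset.add_sum_erase _ (fun j => ‖p j‖ ^ 2) (Finset.mem_univ i),
      Finset.sum_congr rfl (g := fun j => ‖p j‖ ^ 2) fun j hj => by
        rw [Function.update_of_ne (Finset.ne_of_mem_erase hj)]]
    simp; ring
  rw [e1, e2, norm_add_sq_real] at h1
  have e3 : ‖y‖ ^ 2 = ‖p i‖ ^ 2 + 2 * ⟪p i, y - p i⟫ + ‖y - p i‖ ^ 2 := by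
    rw [← norm_add_sq_real]; simp
  rw [inner_sub_left, real_inner_smul_left]
  linarith

end Pool.Agent.Results.MP_3684f0_an.Expose
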